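import Mathlib

/-!
The space `ℓ_p`, `1 < p < ∞`, is strictly convex, and its unit vectors are normalised and
`1`-unconditional.
-/

set_option autoImplicit false
open Filter Topology
open scoped ENNReal

namespace Pool.Agent.T6.H21.JR

theorem mid_le (r : ℝ) (hr : 1 < r) (a b : ℝ) :
    |(a + b) / 2| ^ r ≤ (|a| ^ r + |b| ^ r) / 2 := by
  have h1 : |(a + b) / 2| ≤ (|a| + |b|) / 2 := by
    rw [abs_div, abs_two]
    have := abs_add_le a b
    linarith
  have h2 := (strictConvexOn_rpow hr).convexOn.2 (abs_nonneg a : |a| ∈ Set.Ici (0 : ℝ))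
    (abs_nonneg b : |b| ∈ Set.Ici (0 : ℝ)) (by norm_num : (0 : ℝ) ≤ 1 / 2)
    (by norm_num : (0 : ℝ) ≤ 1 / 2) (by norm_num)
  simp only [smul_eq_mul] at h2
  have h3 : |(a + b) / 2| ^ r ≤ (1 / 2 * |a| + 1 / 2 * |b|) ^ r :=
    Real.rpow_le_rpow (abs_nonneg _) (by linarith) (by linarith)
  linarith

theorem mid_lt (r : ℝ) (hr : 1 < r) (a b : ℝ) (hab : a ≠ b) :
    |(a + b) / 2| ^ r < (|a| ^ r + |b| ^ r) / 2 := by
  by_cases h : |a| = |b|
  · rcases abs_eq_abs.1 h with h1 | h1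
    · exact absurd h1 hab
    · have h2 : a ≠ 0 := by
        intro h3
        rw [h3] at h1
        exact hab (by linarith)
      have h4 : (a + b) / 2 = 0 := by rw [h1]; ring
      have h5 : 0 < |a| ^ r := Real.rpow_pos_of_pos (abs_pos.2 h2) r
      rw [h4, abs_zero, Real.zero_rpow (by linarith), ← h]
      linarith
  · have h1 : |(a + b) / 2| ≤ (|a| + |b|) / 2 := by
      rw [abs_div, abs_two]
      have := abs_add_le a b
      linarith
    have h2 := (strictConvexOn_rpow hr).2 (abs_nonneg a : |a| ∈ Set.Ici (0 : ℝ))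
      (abs_nonneg b : |b| ∈ Set.Ici (0 : ℝ)) h (by norm_num : (0 : ℝ) < 1 / 2)
      (by norm_num : (0 : ℝ) < 1 / 2) (by norm_num)
    simp only [smul_eq_mul] at h2
    have h3 : |(a + b) / 2| ^ r ≤ (1 / 2 * |a| + 1 / 2 * |b|) ^ r :=
      Real.rpow_le_rpow (abs_nonneg _) (by linarith) (by linarith)
    linarith

theorem strictConvex_lp (p : ℝ≥0∞) [Fact (1 ≤ p)] (hp : 1 < p) (hp' : p ≠ ∞) :
    StrictConvexSpace ℝ (lp (fun _ : ℕ => ℝ) p) := by
  have hr : 1 < p.toReal := by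
    rw [← ENNReal.toReal_one]
    exact (ENNReal.toReal_lt_toReal ENNReal.one_ne_top hp').2 hp
  refine StrictConvexSpace.of_norm_add_ne_two ?_
  intro f g hf hg hfg h2
  have hr0 : 0 < p.toReal := by linarith
  obtain ⟨i, hi⟩ : ∃ i, f i ≠ g i := by
    by_contra h
    push Not at h
    exact hfg (lp.ext (funext h))
  set k : lp (fun _ : ℕ => ℝ) p := (1 / 2 : ℝ) • (f + g) with hk
  have hk1 : ‖k‖ = 1 := by
    rw [hk, norm_smul, h2]
    norm_num
  have s1 := lp.hasSum_norm hr0 f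
  have s2 := lp.hasSum_norm hr0 g
  have s3 := lp.hasSum_norm hr0 k
  rw [hf, Real.one_rpow] at s1
  rw [hg, Real.one_rpow] at s2
  rw [hk1, Real.one_rpow] at s3
  have s4 : HasSum (fun i => (‖f i‖ ^ p.toReal + ‖g i‖ ^ p.toReal) / 2) 1 := by
    have := (s1.add s2).div_const 2
    norm_num at this
    exact this
  have hki : ∀ i, ‖k i‖ = |(f i + g i) / 2| := by
    intro i
    have : k i = (f i + g i) / 2 := by
      show (1 / 2 : ℝ) • (f i + g i) = _
      rw [smul_eq_mul]; ring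
    rw [this, Real.norm_eq_abs]
  have h5 : (1 : ℝ) < 1 := by
    refine hasSum_lt (f := fun i => ‖k i‖ ^ p.toReal) (i := i) ?_ ?_ s3 s4
    · intro j
      dsimp only
      rw [hki, Real.norm_eq_abs, Real.norm_eq_abs]
      exact mid_le _ hr _ _
    · dsimp only
      rw [hki, Real.norm_eq_abs, Real.norm_eq_abs]
      exact mid_lt _ hr _ _ hi
  exact lt_irrefl _ h5

theorem single_norm (p : ℝ≥0∞) [Fact (1 ≤ p)] (hp' : p ≠ ∞) (i : ℕ) :
    ‖(lp.single p i (1 : ℝ) : lp (fun _ : ℕ => ℝ) p)‖ = 1 := by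
  have hp0 : 0 < p := lt_of_lt_of_le zero_lt_one (Fact.out : 1 ≤ p)
  rw [lp.norm_single hp0]
  simp

theorem single_sign (p : ℝ≥0∞) [Fact (1 ≤ p)] (hp' : p ≠ ∞) (t : Finset ℕ) (a θ : ℕ → ℝ)
    (hθ : ∀ i, |θ i| = 1) :
    ‖∑ i ∈ t, (θ i * a i) • (lp.single p i (1 : ℝ) : lp (fun _ : ℕ => ℝ) p)‖ =
      ‖∑ i ∈ t, a i • (lp.single p i (1 : ℝ) : lp (fun _ : ℕ => ℝ) p)‖ := by
  have hp0 : 0 < p.toReal :=
    ENNReal.toReal_pos (lt_of_lt_of_le zero_lt_one (Fact.out : 1 ≤ p)).ne' hp'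
  have key : ∀ c : ℕ → ℝ, ‖∑ i ∈ t, c i • (lp.single p i (1 : ℝ) : lp (fun _ : ℕ => ℝ) p)‖ ^
      p.toReal = ∑ i ∈ t, |c i| ^ p.toReal := by
    intro c
    have e : ∀ i, c i • (lp.single p i (1 : ℝ) : lp (fun _ : ℕ => ℝ) p) = lp.single p i (c i) := by
      intro i
      rw [← lp.single_smul, smul_eq_mul, mul_one]
    simp_rw [e]
    have := lp.norm_sum_single (E := fun _ : ℕ => ℝ) hp0 c t
    rw [this]
    rfl
  have h1 := key (fun i => θ i * a i)
  have h2 := key a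
  have h3 : ∑ i ∈ t, |θ i * a i| ^ p.toReal = ∑ i ∈ t, |a i| ^ p.toReal := by
    refine Finset.sum_congr rfl fun i _ => ?_
    rw [abs_mul, hθ, one_mul]
  rw [h3, ← h2] at h1
  exact (Real.rpow_left_inj (norm_nonneg _) (norm_nonneg _) hp0.ne').1 h1

end Pool.Agent.T6.H21.JR
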