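import Pool.Agent.T6.H21.JR.Op

/-!
The coordinate functionals of a Jamesification and the rigidity lemmas.
-/

set_option autoImplicit false
open Filter Topology

namespace Pool.Agent.T6.H21.JR

open Pool.Agent.Results.MP_8db9c5_an.NontrivialIsometry

section
variable {X : Type} [NormedAddCommGroup X] [NormedSpace ℝ X] {x : ℕ → X}

theorem Unc.other [StrictConvexSpace ℝ X] (hx : Unc x) (t : Finset ℕ) (b : ℕ → ℝ) (k : ℕ)
    (hk : k ∈ t) (h : ‖∑ j ∈ t, b j • x j‖ ≤ 1) (hb : |b k| = 1) :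
    ∀ l ∈ t, l ≠ k → b l = 0 := by
  classical
  intro l hl hlk
  set θ : ℕ → ℝ := fun j => if j = k then 1 else -1 with hθ
  have h1 := hx.sign t b θ (by intro i; by_cases h : i = k <;> simp [hθ, h])
  have h3 : ∑ j ∈ t, b j • x j + ∑ j ∈ t, (θ j * b j) • x j = (2 : ℝ) • (b k • x k) := by
    rw [← Finset.sum_add_distrib, Finset.sum_eq_single_of_mem k hk]
    · simp only [hθ, if_true, one_mul]
      rw [two_smul]
    · intro j _ hj
      simp only [hθ, if_neg hj]
      rw [← add_smul]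
      simp
  have h4 : ‖∑ j ∈ t, b j • x j + ∑ j ∈ t, (θ j * b j) • x j‖ = 2 := by
    rw [h3, norm_smul, norm_smul, Real.norm_eq_abs (b k), hb, hx.norm_one]
    norm_num
  have h5 := norm_add_le (∑ j ∈ t, b j • x j) (∑ j ∈ t, (θ j * b j) • x j)
  have h6 : ∑ j ∈ t, b j • x j = ∑ j ∈ t, (θ j * b j) • x j :=
    eq_of_norm_eq_of_norm_add_eq h1.symm (by linarith)
  have h7 : ∑ j ∈ t, (b j - θ j * b j) • x j = 0 := by
    simp_rw [sub_smul]
    rw [Finset.sum_sub_distrib, h6, sub_self]
  have h8 := hx.coef_le t (fun j => b j - θ j * b j) l hl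
  rw [h7, norm_zero] at h8
  have h9 := abs_nonpos_iff.1 h8
  simp only [hθ, if_neg hlk] at h9
  linarith

theorem Unc.other3 [StrictConvexSpace ℝ X] (hx : Unc x) {k l m : ℕ} (hkl : k ≠ l) (hkm : k ≠ m)
    (hlm : l ≠ m) {a b c : ℝ} (h : ‖a • x k + b • x l + c • x m‖ ≤ 1) :
    (|a| = 1 → b = 0 ∧ c = 0) ∧ (|c| = 1 → a = 0 ∧ b = 0) := by
  have e : ∑ j ∈ ({k, l, m} : Finset ℕ), (fun j => if j = k then a else if j = l then b else c) j •
      x j = a • x k + b • x l + c • x m := by
    rw [Finset.sum_insert (by simp [hkl, hkm]), Finset.sum_pair hlm]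
    simp [hkl.symm, hkm.symm, hlm.symm, add_assoc]
  rw [← e] at h
  constructor
  · intro ha
    have h1 := hx.other {k, l, m} (fun j => if j = k then a else if j = l then b else c) k
      (by simp) h (by simpa using ha)
    constructor
    · have := h1 l (by simp) hkl.symm
      simpa [hkl.symm] using this
    · have := h1 m (by simp) hkm.symm
      simpa [hkm.symm, hlm.symm] using this
  · intro hc
    have h1 := hx.other {k, l, m} (fun j => if j = k then a else if j = l then b else c) m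
      (by simp) h (by simpa [hkm.symm, hlm.symm] using hc)
    constructor
    · have := h1 k (by simp) hkm
      simpa using this
    · have := h1 l (by simp) hlm
      simpa [hkl.symm] using this

theorem Unc.ne (hx : Unc x) {k l : ℕ} (hkl : k ≠ l) : x k ≠ x l := by
  intro h
  have h1 := (hx.coef2 hkl 1 (-1)).1
  rw [h, one_smul, neg_smul, one_smul, add_neg_cancel, norm_zero, abs_one] at h1
  linarith

variable {J : Type} [NormedAddCommGroup J] [NormedSpace ℝ J] [CompleteSpace J]
  {ι : (ℕ →₀ ℝ) →ₗ[ℝ] J}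

/-- The sum of all coordinates. -/
noncomputable def A (ι : (ℕ →₀ ℝ) →ₗ[ℝ] J) : J →L[ℝ] ℝ :=
  (Finsupp.linearCombination ℝ (fun _ : ℕ => (1 : ℝ))).extendOfNorm ι

/-- The coordinates. -/
noncomputable def co (ι : (ℕ →₀ ℝ) →ₗ[ℝ] J) (i : ℕ) : J →L[ℝ] ℝ :=
  (Finsupp.lapply i : (ℕ →₀ ℝ) →ₗ[ℝ] ℝ).extendOfNorm ι

theorem A_bound (hx : Unc x) (hJ : IsJamesification x J ι) (a : ℕ →₀ ℝ) :
    ‖Finsupp.linearCombination ℝ (fun _ : ℕ => (1 : ℝ)) a‖ ≤ 1 * ‖ι a‖ := by
  have h1 := D0_le hJ (fun _ => false) a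
  have h2 : ∀ j, st (fun _ => false) j = 0 := by
    intro j
    exact st_eq _ j 0 (Nat.zero_le j) (Or.inl rfl) (fun _ _ _ => rfl)
  have h3 : D0 x (fun _ => false) a =
      (Finsupp.linearCombination ℝ (fun _ : ℕ => (1 : ℝ)) a) • x 0 := by
    unfold D0
    rw [Finsupp.linearCombination_apply, Finsupp.linearCombination_apply, Finsupp.sum, Finsupp.sum,
      Finset.sum_smul]
    refine Finset.sum_congr rfl fun j _ => ?_
    rw [h2, smul_eq_mul, mul_one]
  rw [h3, norm_smul, hx.norm_one, mul_one] at h1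
  rw [one_mul]
  exact h1

theorem co_bound (hx : Unc x) (hJ : IsJamesification x J ι) (i : ℕ) (a : ℕ →₀ ℝ) :
    ‖(Finsupp.lapply i : (ℕ →₀ ℝ) →ₗ[ℝ] ℝ) a‖ ≤ 1 * ‖ι a‖ := by
  classical
  obtain ⟨N0, hN0⟩ := exists_bound a
  set S : ℕ → Bool := fun n => decide (n = i ∨ n = i + 1) with hS
  set N : ℕ := max N0 (i + 1) with hN
  have h1 := D0_le hJ S a
  rw [D0_range S a N (fun j hj => hN0 j (by omega))] at h1
  have h2 := hx.filter_le (Finset.range N) a (st S) (fun m => m = i)
  have h3 : (Finset.range N).filter (fun j => st S j = i) = {i} := by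
    ext j
    simp only [Finset.mem_filter, Finset.mem_range, Finset.mem_singleton]
    constructor
    · rintro ⟨_, h⟩
      have h4 := st_le S j
      by_contra h5
      have h6 : i + 1 ≤ st S j := le_st S j (i + 1) (by omega) (by simp [hS])
      omega
    · rintro rfl
      exact ⟨by omega, st_eq S _ _ le_rfl (Or.inr (by simp [hS])) (fun r _ _ => by omega)⟩
  rw [h3, Finset.sum_singleton, norm_smul, hx.norm_one, mul_one] at h2
  rw [one_mul, Finsupp.lapply_apply]
  exact h2.trans h1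

theorem A_ι (hx : Unc x) (hJ : IsJamesification x J ι) (a : ℕ →₀ ℝ) :
    A ι (ι a) = Finsupp.linearCombination ℝ (fun _ : ℕ => (1 : ℝ)) a :=
  LinearMap.extendOfNorm_eq hJ.dense ⟨1, A_bound hx hJ⟩ a

theorem co_ι (hx : Unc x) (hJ : IsJamesification x J ι) (i : ℕ) (a : ℕ →₀ ℝ) :
    co ι i (ι a) = a i := by
  have := LinearMap.extendOfNorm_eq hJ.dense ⟨1, co_bound hx hJ i⟩ a
  rw [Finsupp.lapply_apply] at this
  exact this

theorem A_le (hx : Unc x) (hJ : IsJamesification x J ι) (z : J) : |A ι z| ≤ ‖z‖ := by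
  have h := LinearMap.norm_extendOfNorm_apply_le hJ.dense 1 (A_bound hx hJ) z
  rwa [one_mul, Real.norm_eq_abs] at h

theorem co_le (hx : Unc x) (hJ : IsJamesification x J ι) (i : ℕ) (z : J) : |co ι i z| ≤ ‖z‖ := by
  have h := LinearMap.norm_extendOfNorm_apply_le hJ.dense 1 (co_bound hx hJ i) z
  rwa [one_mul, Real.norm_eq_abs] at h

theorem A_E (hx : Unc x) (hJ : IsJamesification x J ι) (i : ℕ) : A ι (E ι i) = 1 := by
  unfold E
  rw [A_ι hx hJ, Finsupp.linearCombination_single, smul_eq_mul, mul_one]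

theorem co_E (hx : Unc x) (hJ : IsJamesification x J ι) (i k : ℕ) :
    co ι i (E ι k) = if k = i then 1 else 0 := by
  unfold E
  rw [co_ι hx hJ, Finsupp.single_apply]

/-- Partial sums of the coordinates. -/
noncomputable def ps (ι : (ℕ →₀ ℝ) →ₗ[ℝ] J) (m : ℕ) : J →L[ℝ] ℝ := ∑ i ∈ Finset.range m, co ι i

theorem ps_apply (m : ℕ) (z : J) : ps ι m z = ∑ i ∈ Finset.range m, co ι i z := by
  unfold ps
  rw [ContinuousLinearMap.sum_apply]

theorem ps_succ (m : ℕ) (z : J) : ps ι (m + 1) z = ps ι m z + co ι m z := by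
  rw [ps_apply, ps_apply, Finset.sum_range_succ]

theorem ps_zero (z : J) : ps ι 0 z = 0 := by
  rw [ps_apply]; simp

theorem ps_E (hx : Unc x) (hJ : IsJamesification x J ι) (m k : ℕ) :
    ps ι m (E ι k) = if k < m then 1 else 0 := by
  rw [ps_apply]
  simp only [co_E hx hJ]
  rw [Finset.sum_ite_eq]
  simp

variable [CompleteSpace X]

theorem D2 (hx : Unc x) (hJ : IsJamesification x J ι) (m : ℕ) (hm : 0 < m) (z : J) :
    D x ι (fun n => decide (n = m)) z = ps ι m z • x 0 + (A ι z - ps ι m z) • x m := by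
  have h := ext_E hJ.dense (D x ι (fun n => decide (n = m)))
    ((ps ι m).smulRight (x 0) + (A ι - ps ι m).smulRight (x m)) (fun i => by
      rw [D_E hJ]
      simp only [ContinuousLinearMap.add_apply, ContinuousLinearMap.smulRight_apply,
        ContinuousLinearMap.sub_apply, ps_E hx hJ, A_E hx hJ]
      by_cases hi : i < m
      · rw [st_eq _ i 0 (Nat.zero_le i) (Or.inl rfl)
          (fun r _ h => by simp only [decide_eq_false_iff_not]; omega)]
        simp [hi]
      · rw [st_eq _ i m (by omega) (Or.inr (by simp))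
          (fun r _ h => by simp only [decide_eq_false_iff_not]; omega)]
        simp [hi])
  rw [h]
  rfl

theorem D3 (hx : Unc x) (hJ : IsJamesification x J ι) (j m : ℕ) (hj : 0 < j) (hm : j < m) (z : J) :
    D x ι (fun n => decide (n = j ∨ n = m)) z =
      ps ι j z • x 0 + (ps ι m z - ps ι j z) • x j + (A ι z - ps ι m z) • x m := by
  have h := ext_E hJ.dense (D x ι (fun n => decide (n = j ∨ n = m)))
    ((ps ι j).smulRight (x 0) + (ps ι m - ps ι j).smulRight (x j) +
      (A ι - ps ι m).smulRight (x m)) (fun i => by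
      rw [D_E hJ]
      simp only [ContinuousLinearMap.add_apply, ContinuousLinearMap.smulRight_apply,
        ContinuousLinearMap.sub_apply, ps_E hx hJ, A_E hx hJ]
      by_cases hi : i < j
      · rw [st_eq _ i 0 (Nat.zero_le i) (Or.inl rfl)
          (fun r _ h => by simp only [decide_eq_false_iff_not]; omega)]
        simp [hi, show i < m by omega]
      · by_cases hi2 : i < m
        · rw [st_eq _ i j (by omega) (Or.inr (by simp))
            (fun r _ h => by simp only [decide_eq_false_iff_not]; omega)]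
          simp [hi, hi2]
        · rw [st_eq _ i m (by omega) (Or.inr (by simp))
            (fun r _ h => by simp only [decide_eq_false_iff_not]; omega)]
          simp [hi, hi2])
  rw [h]
  rfl

theorem ps_le (hx : Unc x) (hJ : IsJamesification x J ι) (m : ℕ) (hm : 0 < m) (z : J) :
    |ps ι m z| ≤ ‖z‖ ∧ |A ι z - ps ι m z| ≤ ‖z‖ := by
  have h1 := D_le hJ (fun n => decide (n = m)) z
  rw [D2 hx hJ m hm] at h1
  have h2 := hx.coef2 (k := 0) (l := m) (by omega) (ps ι m z) (A ι z - ps ι m z)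
  exact ⟨h2.1.trans h1, h2.2.trans h1⟩

theorem ps_mem (hx : Unc x) (hJ : IsJamesification x J ι) (m : ℕ) (hm : 0 < m) (z : J)
    (hz : ‖z‖ ≤ 1) (hA : A ι z = 1) : 0 ≤ ps ι m z ∧ ps ι m z ≤ 1 := by
  obtain ⟨h1, h2⟩ := ps_le hx hJ m hm z
  rw [hA] at h2
  have h3 := abs_le.1 (h1.trans hz)
  have h4 := abs_le.1 (h2.trans hz)
  constructor <;> linarith

variable [StrictConvexSpace ℝ X]

theorem K2 (hx : Unc x) (hJ : IsJamesification x J ι) (m : ℕ) (hm : 0 < m) (z : J) (hz : ‖z‖ ≤ 1)
    (h : |A ι z - ps ι m z| = 1) : ∀ i, i < m → co ι i z = 0 := by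
  have h0 : ps ι m z = 0 := by
    have h1 := D_le hJ (fun n => decide (n = m)) z
    rw [D2 hx hJ m hm, add_comm] at h1
    exact hx.other2 (k := m) (l := 0) (by omega) (h1.trans hz) h
  have h2 : ∀ j, j ≤ m → ps ι j z = 0 := by
    intro j hj
    rcases Nat.eq_zero_or_pos j with h3 | h3
    · rw [h3, ps_zero]
    rcases eq_or_lt_of_le hj with h4 | h4
    · rw [h4, h0]
    have h5 := D_le hJ (fun n => decide (n = j ∨ n = m)) z
    rw [D3 hx hJ j m h3 h4] at h5
    exact ((hx.other3 (k := 0) (l := j) (m := m) (by omega) (by omega) (by omega)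
      (h5.trans hz)).2 h).1
  intro i hi
  have h3 := ps_succ (ι := ι) i z
  rw [h2 i hi.le, h2 (i + 1) (by omega)] at h3
  linarith

theorem K3 (hx : Unc x) (hJ : IsJamesification x J ι) (m : ℕ) (hm : 0 < m) (z : J) (hz : ‖z‖ ≤ 1)
    (h : |ps ι m z| = 1) : ∀ i, m ≤ i → co ι i z = 0 := by
  have h2 : ∀ j, m ≤ j → ps ι j z = ps ι m z := by
    intro j hj
    rcases eq_or_lt_of_le hj with h4 | h4
    · rw [h4]
    have h5 := D_le hJ (fun n => decide (n = m ∨ n = j)) z
    rw [D3 hx hJ m j hm h4] at h5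
    have h6 := ((hx.other3 (k := 0) (l := m) (m := j) (by omega) (by omega) (by omega)
      (h5.trans hz)).1 h).1
    linarith
  intro i hi
  have h3 := ps_succ (ι := ι) i z
  rw [h2 i hi, h2 (i + 1) (by omega)] at h3
  linarith

end

end Pool.Agent.T6.H21.JR
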