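import Mathlib

/-!
The Jamesification norm written with sets of starting points of intervals.
-/

set_option autoImplicit false
open Filter Topology

namespace Pool.Agent.T6.H21.JR

/-- The last starting point which is at most `j`, where `S` is the set of starting points
(`0` is always a starting point). -/
def st (S : ℕ → Bool) : ℕ → ℕ
  | 0 => 0
  | (j + 1) => if S (j + 1) then j + 1 else st S j

theorem st_le (S : ℕ → Bool) (j : ℕ) : st S j ≤ j := by
  induction j with
  | zero => simp [st]
  | succ j ih =>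
    unfold st
    split
    · exact le_rfl
    · omega

theorem st_mem (S : ℕ → Bool) (j : ℕ) : st S j = 0 ∨ S (st S j) = true := by
  induction j with
  | zero => simp [st]
  | succ j ih =>
    unfold st
    split
    · right; assumption
    · exact ih

theorem le_st (S : ℕ → Bool) (j p : ℕ) (hp : p ≤ j) (hS : S p = true) : p ≤ st S j := by
  induction j with
  | zero => simp [st]; omega
  | succ j ih =>
    unfold st
    split
    · exact hp
    · rename_i h
      rcases Nat.lt_or_ge j p with h1 | h1
      · have : p = j + 1 := by omega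
        rw [this] at hS
        exact absurd hS h
      · exact ih h1

theorem st_eq (S : ℕ → Bool) (j p : ℕ) (hp : p ≤ j) (hS : p = 0 ∨ S p = true)
    (h : ∀ r, p < r → r ≤ j → S r = false) : st S j = p := by
  have h1 : p ≤ st S j := by
    rcases hS with h0 | h0
    · omega
    · exact le_st S j p hp h0
  rcases Nat.lt_or_ge p (st S j) with h2 | h2
  · exfalso
    have h3 := h _ h2 (st_le S j)
    rcases st_mem S j with h4 | h4
    · omega
    · rw [h3] at h4
      exact absurd h4 (by simp)
  · omega

section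
variable {X : Type} [NormedAddCommGroup X] [NormedSpace ℝ X]

/-- Sign changes do not change the norm of finite linear combinations, and `‖x i‖ = 1`. -/
structure Unc (x : ℕ → X) : Prop where
  norm_one : ∀ i, ‖x i‖ = 1
  sign : ∀ (t : Finset ℕ) (a θ : ℕ → ℝ), (∀ i, |θ i| = 1) →
    ‖∑ i ∈ t, (θ i * a i) • x i‖ = ‖∑ i ∈ t, a i • x i‖

variable {x : ℕ → X}

/-- Sign changes of labels. -/
theorem Unc.sign_lab (hx : Unc x) (t : Finset ℕ) (b : ℕ → ℝ) (l : ℕ → ℕ) (θ : ℕ → ℝ)
    (hθ : ∀ i, |θ i| = 1) :
    ‖∑ j ∈ t, (θ (l j) * b j) • x (l j)‖ = ‖∑ j ∈ t, b j • x (l j)‖ := by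
  classical
  have h1 : ∀ c : ℕ → ℝ, ∑ j ∈ t, c j • x (l j) =
      ∑ m ∈ t.image l, (∑ j ∈ t with l j = m, c j) • x m := by
    intro c
    rw [← Finset.sum_fiberwise_of_maps_to (g := l) (t := t.image l)
      (fun i hi => Finset.mem_image_of_mem l hi)]
    refine Finset.sum_congr rfl fun m _ => ?_
    rw [Finset.sum_smul]
    refine Finset.sum_congr rfl fun j hj => ?_
    rw [(Finset.mem_filter.1 hj).2]
  rw [h1, h1]
  rw [← hx.sign (t.image l) (fun m => ∑ j ∈ t with l j = m, b j) θ hθ]
  congr 1
  refine Finset.sum_congr rfl fun m _ => ?_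
  congr 1
  rw [Finset.mul_sum]
  refine Finset.sum_congr rfl fun j hj => ?_
  rw [(Finset.mem_filter.1 hj).2]

/-- Leaving out labels does not increase the norm. -/
theorem Unc.filter_le (hx : Unc x) (t : Finset ℕ) (b : ℕ → ℝ) (l : ℕ → ℕ) (P : ℕ → Prop)
    [DecidablePred P] :
    ‖∑ j ∈ t with P (l j), b j • x (l j)‖ ≤ ‖∑ j ∈ t, b j • x (l j)‖ := by
  classical
  set θ : ℕ → ℝ := fun m => if P m then 1 else -1 with hθ
  have h0 : ∀ m, |θ m| = 1 := by
    intro m
    simp only [hθ]
    split <;> simp
  have h1 := hx.sign_lab t b l θ h0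
  have h2 : (2 : ℝ) • ∑ j ∈ t with P (l j), b j • x (l j) =
      ∑ j ∈ t, b j • x (l j) + ∑ j ∈ t, (θ (l j) * b j) • x (l j) := by
    rw [← Finset.sum_add_distrib, Finset.sum_filter, Finset.smul_sum]
    refine Finset.sum_congr rfl fun j _ => ?_
    by_cases h : P (l j)
    · simp only [h, hθ, if_true, one_mul]
      rw [two_smul]
    · simp only [h, hθ, if_false]
      rw [smul_zero, ← add_smul]
      simp
  have h3 := congrArg norm h2
  rw [norm_smul, Real.norm_ofNat] at h3
  have h4 := norm_add_le (∑ j ∈ t, b j • x (l j)) (∑ j ∈ t, (θ (l j) * b j) • x (l j))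
  rw [h1] at h4
  linarith

/-- Coefficients are bounded by the norm. -/
theorem Unc.coef_le (hx : Unc x) (t : Finset ℕ) (b : ℕ → ℝ) (k : ℕ) (hk : k ∈ t) :
    |b k| ≤ ‖∑ j ∈ t, b j • x j‖ := by
  classical
  have h := hx.filter_le t b id (fun m => m = k)
  have h2 : (t.filter fun j => id j = k) = {k} := by
    ext j
    simp only [id, Finset.mem_filter, Finset.mem_singleton]
    constructor
    · exact fun h => h.2
    · rintro rfl; exact ⟨hk, rfl⟩
  rw [h2, Finset.sum_singleton, norm_smul] at h
  simp only [id] at h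
  rw [hx.norm_one, mul_one, Real.norm_eq_abs] at h
  exact h

theorem Unc.coef2 (hx : Unc x) {k l : ℕ} (hkl : k ≠ l) (a b : ℝ) :
    |a| ≤ ‖a • x k + b • x l‖ ∧ |b| ≤ ‖a • x k + b • x l‖ := by
  have e : ∑ j ∈ ({k, l} : Finset ℕ), (fun j => if j = k then a else b) j • x j =
      a • x k + b • x l := by
    rw [Finset.sum_pair hkl]
    simp [hkl.symm]
  constructor
  · have h := hx.coef_le {k, l} (fun j => if j = k then a else b) k (by simp)
    rw [e] at h
    simpa using h
  · have h := hx.coef_le {k, l} (fun j => if j = k then a else b) l (by simp)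
    rw [e] at h
    simpa [hkl.symm] using h

theorem Unc.coef3 (hx : Unc x) {k l m : ℕ} (hkl : k ≠ l) (hkm : k ≠ m) (hlm : l ≠ m) (a b c : ℝ) :
    |a| ≤ ‖a • x k + b • x l + c • x m‖ ∧ |b| ≤ ‖a • x k + b • x l + c • x m‖ ∧
      |c| ≤ ‖a • x k + b • x l + c • x m‖ := by
  have e : ∑ j ∈ ({k, l, m} : Finset ℕ), (fun j => if j = k then a else if j = l then b else c) j •
      x j = a • x k + b • x l + c • x m := by
    rw [Finset.sum_insert (by simp [hkl, hkm]), Finset.sum_pair hlm]
    simp [hkl.symm, hkm.symm, hlm.symm, add_assoc]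
  refine ⟨?_, ?_, ?_⟩
  · have h := hx.coef_le {k, l, m} (fun j => if j = k then a else if j = l then b else c) k (by simp)
    rw [e] at h
    simpa using h
  · have h := hx.coef_le {k, l, m} (fun j => if j = k then a else if j = l then b else c) l (by simp)
    rw [e] at h
    simpa [hkl.symm] using h
  · have h := hx.coef_le {k, l, m} (fun j => if j = k then a else if j = l then b else c) m (by simp)
    rw [e] at h
    simpa [hkm.symm, hlm.symm] using h

/-- Equality in the triangle inequality for convex combinations. -/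
theorem sc_conv [StrictConvexSpace ℝ X] {p q : X} {w : ℝ} (hp : ‖p‖ ≤ w) (hq : ‖q‖ ≤ 1 - w)
    (hpq : 1 ≤ ‖p + q‖) : p = w • (p + q) := by
  have h1 := norm_add_le p q
  have h2 : ‖p‖ = w := by linarith
  have h3 : ‖q‖ = 1 - w := by linarith
  have h4 : ‖p + q‖ = ‖p‖ + ‖q‖ := by linarith
  have h5 : SameRay ℝ p q := sameRay_iff_norm_add.2 h4
  have h6 := h5.norm_smul_eq
  rw [h2, h3] at h6
  rw [smul_add, h6, sub_smul, one_smul]
  abel

/-- If one coefficient has absolute value one in a vector of norm at most one, the others vanish. -/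
theorem Unc.other2 [StrictConvexSpace ℝ X] (hx : Unc x) {k l : ℕ} (hkl : k ≠ l) {a b : ℝ}
    (h : ‖a • x k + b • x l‖ ≤ 1) (ha : |a| = 1) : b = 0 := by
  have h1 : ‖a • x k + (-b) • x l‖ = ‖a • x k + b • x l‖ := by
    have h2 := hx.sign {k, l} (fun j => if j = k then a else b) (fun j => if j = k then 1 else -1)
      (by intro i; by_cases h : i = k <;> simp [h])
    rw [Finset.sum_pair hkl, Finset.sum_pair hkl] at h2
    simpa [hkl.symm] using h2
  have h3 : (a • x k + b • x l) + (a • x k + (-b) • x l) = (2 : ℝ) • (a • x k) := by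
    rw [neg_smul, two_smul]; abel
  have h4 : ‖(a • x k + b • x l) + (a • x k + (-b) • x l)‖ = 2 := by
    rw [h3, norm_smul, norm_smul, Real.norm_eq_abs a, ha, hx.norm_one]
    norm_num
  have h5 := norm_add_le (a • x k + b • x l) (a • x k + (-b) • x l)
  have h6 : a • x k + b • x l = a • x k + (-b) • x l :=
    eq_of_norm_eq_of_norm_add_eq h1.symm (by linarith)
  have h7 : (0 : ℝ) • x k + (2 * b) • x l = 0 := by
    have h8 := add_left_cancel h6
    rw [zero_smul, zero_add, mul_smul, two_smul]
    nth_rewrite 2 [h8]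
    rw [neg_smul]; abel
  have h9 := (hx.coef2 hkl 0 (2 * b)).2
  rw [h7, norm_zero] at h9
  have := abs_nonpos_iff.1 h9
  linarith

end

end Pool.Agent.T6.H21.JR
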