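import Pool.Agent.T6.H21.JR.Norm
import Pool.Agent.Results.MP_8db9c5_an.NontrivialIsometry

/-!
The operators `D S : J → X` which send `e j` to `x (st S j)`, and the coordinate functionals.
-/

set_option autoImplicit false
open Filter Topology

namespace Pool.Agent.T6.H21.JR

open Pool.Agent.Results.MP_8db9c5_an.NontrivialIsometry

section
variable {X : Type} [NormedAddCommGroup X] [NormedSpace ℝ X] {x : ℕ → X}

/-- The vector of block sums on `c₀₀`. -/
noncomputable def D0 (x : ℕ → X) (S : ℕ → Bool) : (ℕ →₀ ℝ) →ₗ[ℝ] X :=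
  Finsupp.linearCombination ℝ (fun j => x (st S j))

theorem D0_range (S : ℕ → Bool) (a : ℕ →₀ ℝ) (N : ℕ) (hN : ∀ j, N ≤ j → a j = 0) :
    D0 x S a = ∑ j ∈ Finset.range N, a j • x (st S j) := by
  unfold D0
  rw [Finsupp.linearCombination_apply, Finsupp.sum]
  refine Finset.sum_subset ?_ ?_
  · intro j hj
    rw [Finset.mem_range]
    by_contra h
    exact (Finsupp.mem_support_iff.1 hj) (hN j (not_lt.1 h))
  · intro j _ hj
    rw [Finsupp.notMem_support_iff.1 hj, zero_smul]

theorem exists_bound (a : ℕ →₀ ℝ) : ∃ N, ∀ j, N ≤ j → a j = 0 := by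
  refine ⟨a.support.sup id + 1, fun j hj => ?_⟩
  by_contra h
  have h1 : j ∈ a.support := Finsupp.mem_support_iff.2 h
  have h2 : id j ≤ a.support.sup id := Finset.le_sup h1
  simp only [id] at h2
  omega

/-- Block sums are values of the Jamesification norm. -/
theorem rep (S : ℕ → Bool) (a : ℕ →₀ ℝ) (N : ℕ) :
    ∃ (k : ℕ) (p q : Fin (k + 1) → ℕ), (∀ i, p i ≤ q i) ∧ (∀ i j, i < j → q i < p j) ∧
      q (Fin.last k) = N ∧ p (Fin.last k) = st S N ∧
      ∑ j ∈ Finset.range (N + 1), a j • x (st S j) =
        ∑ i, (∑ j ∈ Finset.Icc (p i) (q i), a j) • x (p i) := by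
  induction N with
  | zero =>
    refine ⟨0, fun _ => 0, fun _ => 0, fun _ => le_rfl, ?_, rfl, rfl, ?_⟩
    · intro i j hij
      exact absurd hij (by simp)
    · simp [st]
  | succ N ih =>
    obtain ⟨k, p, q, h1, h2, h3, h4, h5⟩ := ih
    by_cases hS : S (N + 1) = true
    · have hst : st S (N + 1) = N + 1 := by simp [st, hS]
      refine ⟨k + 1, Fin.snoc p (N + 1), Fin.snoc q (N + 1), ?_, ?_, ?_, ?_, ?_⟩
      · intro i
        refine Fin.lastCases ?_ (fun i => ?_) i
        · simp
        · simpa using h1 i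
      · intro i j
        refine Fin.lastCases ?_ (fun j => ?_) j
        · refine Fin.lastCases ?_ (fun i => ?_) i
          · intro h; exact absurd h (lt_irrefl _)
          · intro _
            simp only [Fin.snoc_castSucc, Fin.snoc_last]
            have : q i ≤ q (Fin.last k) := by
              rcases eq_or_lt_of_le (Fin.le_last i) with h | h
              · rw [h]
              · have := h2 i _ h
                have := h1 (Fin.last k)
                omega
            omega
        · refine Fin.lastCases ?_ (fun i => ?_) i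
          · intro h
            exact absurd h (not_lt.2 (Fin.castSucc_lt_last j).le)
          · intro h
            simp only [Fin.snoc_castSucc]
            exact h2 i j (by simpa using h)
      · simp
      · simp [hst]
      · rw [Finset.sum_range_succ, h5]
        conv_rhs => rw [Fin.sum_univ_castSucc]
        simp only [Fin.snoc_castSucc, Fin.snoc_last, hst, Finset.Icc_self, Finset.sum_singleton]
    · have hst : st S (N + 1) = st S N := by simp [st, hS]
      refine ⟨k, p, fun i => if i = Fin.last k then N + 1 else q i, ?_, ?_, ?_, ?_, ?_⟩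
      · intro i
        dsimp only
        split
        · rename_i h
          rw [h, h4]
          have := st_le S N
          omega
        · exact h1 i
      · intro i j hij
        dsimp only
        have : i ≠ Fin.last k := fun h => absurd hij (by rw [h]; exact not_lt.2 (Fin.le_last j))
        rw [if_neg this]
        exact h2 i j hij
      · simp
      · rw [hst]; exact h4
      · rw [Finset.sum_range_succ, h5, Fin.sum_univ_castSucc, Fin.sum_univ_castSucc]
        have e1 : ∀ i : Fin k, (if i.castSucc = Fin.last k then N + 1 else q i.castSucc) =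
            q i.castSucc := fun i => if_neg (Fin.castSucc_lt_last i).ne
        simp only [e1, if_true]
        rw [add_assoc]
        congr 1
        rw [hst, ← h4, ← add_smul]
        congr 1
        have h6 : p (Fin.last k) ≤ N := by rw [h4]; exact st_le S N
        rw [h3, ← Finset.insert_Icc_right_eq_Icc_add_one (by omega), Finset.sum_insert (by simp)]
        ring

theorem value_le (hx : Unc x) (a : ℕ →₀ ℝ) (r : ℝ) (hr : r ∈ jamesValues x a) :
    ∃ S, r ≤ ‖D0 x S a‖ := by
  classical
  obtain ⟨k, p, q, h1, h2, rfl⟩ := hr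
  obtain ⟨N0, hN0⟩ := exists_bound a
  set S : ℕ → Bool := fun n => decide (∃ i, n = p i ∨ n = q i + 1) with hS
  set N : ℕ := max N0 (Finset.univ.sup q + 1) with hN
  have hq : ∀ i, q i < N := by
    intro i
    have h3 : q i ≤ Finset.univ.sup q := Finset.le_sup (Finset.mem_univ i)
    omega
  have key1 : ∀ i, ∀ j, p i ≤ j → j ≤ q i → st S j = p i := by
    intro i j hj1 hj2
    refine st_eq S j (p i) hj1 (Or.inr ?_) ?_
    · simp only [hS, decide_eq_true_eq]
      exact ⟨i, Or.inl rfl⟩
    · intro r hr1 hr2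
      simp only [hS, decide_eq_false_iff_not]
      rintro ⟨i', hi'⟩
      rcases lt_trichotomy i' i with h | h | h
      · have h3 := h2 i' i h
        have h4 := h1 i'
        omega
      · subst h
        omega
      · have h3 := h2 i i' h
        have h4 := h1 i'
        omega
  have key2 : ∀ i, ∀ j, st S j = p i → p i ≤ j ∧ j ≤ q i := by
    intro i j hj
    have h3 := st_le S j
    refine ⟨by omega, ?_⟩
    by_contra h
    have h4 : q i + 1 ≤ st S j := le_st S j (q i + 1) (by omega) (by
      simp only [hS, decide_eq_true_eq]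
      exact ⟨i, Or.inr rfl⟩)
    have h5 := h1 i
    omega
  refine ⟨S, ?_⟩
  rw [D0_range S a N (fun j hj => hN0 j (by omega))]
  have h3 := hx.filter_le (Finset.range N) a (st S) (fun m => ∃ i, m = p i)
  refine le_trans (le_of_eq ?_) h3
  congr 1
  have h4 : (Finset.range N).filter (fun j => ∃ i, st S j = p i) =
      Finset.univ.biUnion (fun i => Finset.Icc (p i) (q i)) := by
    ext j
    simp only [Finset.mem_filter, Finset.mem_range, Finset.mem_biUnion, Finset.mem_univ, true_and,
      Finset.mem_Icc]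
    constructor
    · rintro ⟨_, i, hi⟩
      exact ⟨i, key2 i j hi⟩
    · rintro ⟨i, hi1, hi2⟩
      exact ⟨lt_of_le_of_lt hi2 (hq i), i, key1 i j hi1 hi2⟩
  rw [h4, Finset.sum_biUnion]
  · refine Finset.sum_congr rfl fun i _ => ?_
    rw [Finset.sum_smul]
    refine Finset.sum_congr rfl fun j hj => ?_
    rw [Finset.mem_Icc] at hj
    rw [key1 i j hj.1 hj.2]
  · intro i _ i' _ hii'
    simp only [Function.onFun]
    rw [Finset.disjoint_left]
    intro j hj hj'
    rw [Finset.mem_Icc] at hj hj'
    rcases lt_or_gt_of_ne hii' with h | h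
    · have := h2 i i' h; omega
    · have := h2 i' i h; omega

variable {J : Type} [NormedAddCommGroup J] [NormedSpace ℝ J] [CompleteSpace J]
  {ι : (ℕ →₀ ℝ) →ₗ[ℝ] J}

theorem D0_le (hJ : IsJamesification x J ι) (S : ℕ → Bool) (a : ℕ →₀ ℝ) :
    ‖D0 x S a‖ ≤ ‖ι a‖ := by
  obtain ⟨N, hN⟩ := exists_bound a
  rw [D0_range S a (N + 1) (fun j hj => hN j (by omega))]
  obtain ⟨k, p, q, h1, h2, h3, h4, h5⟩ := rep (x := x) S a N
  refine (hJ.norm_isLUB a).1 ⟨k, p, q, h1, h2, ?_⟩
  rw [h5]

theorem exists_D0 (hx : Unc x) (hJ : IsJamesification x J ι) (a : ℕ →₀ ℝ) (ε : ℝ) (hε : 0 < ε) :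
    ∃ S, ‖ι a‖ - ε < ‖D0 x S a‖ := by
  obtain ⟨r, hr, h1, _⟩ := (hJ.norm_isLUB a).exists_between (show ‖ι a‖ - ε < ‖ι a‖ by linarith)
  obtain ⟨S, hS⟩ := value_le hx a r hr
  exact ⟨S, lt_of_lt_of_le h1 hS⟩

variable [CompleteSpace X]

/-- The operator `D S : J → X`. -/
noncomputable def D (x : ℕ → X) (ι : (ℕ →₀ ℝ) →ₗ[ℝ] J) (S : ℕ → Bool) : J →L[ℝ] X :=
  (D0 x S).extendOfNorm ι

theorem D_ι (hJ : IsJamesification x J ι) (S : ℕ → Bool) (a : ℕ →₀ ℝ) :
    D x ι S (ι a) = D0 x S a :=
  LinearMap.extendOfNorm_eq hJ.dense ⟨1, fun a => by rw [one_mul]; exact D0_le hJ S a⟩ a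

theorem D_le (hJ : IsJamesification x J ι) (S : ℕ → Bool) (z : J) : ‖D x ι S z‖ ≤ ‖z‖ := by
  have h := LinearMap.norm_extendOfNorm_apply_le (f := D0 x S) (e := ι) hJ.dense 1
    (fun a => by rw [one_mul]; exact D0_le hJ S a) z
  rwa [one_mul] at h

/-- The unit vectors of `J`. -/
noncomputable def E (ι : (ℕ →₀ ℝ) →ₗ[ℝ] J) (i : ℕ) : J := ι (Finsupp.single i 1)

theorem D_E (hJ : IsJamesification x J ι) (S : ℕ → Bool) (i : ℕ) :
    D x ι S (E ι i) = x (st S i) := by
  unfold E
  rw [D_ι hJ]
  unfold D0
  rw [Finsupp.linearCombination_single, one_smul]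

omit [CompleteSpace J] [CompleteSpace X] in
/-- Continuous linear maps on `J` which agree on the unit vectors are equal. -/
theorem ext_E {F : Type} [NormedAddCommGroup F] [NormedSpace ℝ F] (hd : DenseRange ι)
    (f g : J →L[ℝ] F) (h : ∀ i, f (E ι i) = g (E ι i)) : f = g := by
  have h1 : f.toLinearMap.comp ι = g.toLinearMap.comp ι := by
    refine Finsupp.lhom_ext' fun i => LinearMap.ext_ring ?_
    exact h i
  have h2 : (f : J → F) = g := hd.equalizer f.continuous g.continuous (by
    funext a
    exact LinearMap.congr_fun h1 a)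
  exact DFunLike.coe_injective h2

/-- `S ↦ st S j` is continuous. -/
theorem continuous_st (j : ℕ) : Continuous (fun S : ℕ → Bool => st S j) := by
  induction j with
  | zero => exact continuous_const
  | succ j ih =>
    have h1 : (fun S : ℕ → Bool => st S (j + 1)) =
        (fun bn : Bool × ℕ => if bn.1 then j + 1 else bn.2) ∘
          (fun S : ℕ → Bool => (S (j + 1), st S j)) := rfl
    rw [h1]
    exact continuous_of_discreteTopology.comp ((continuous_apply _).prodMk ih)

theorem continuous_D (hJ : IsJamesification x J ι) (z : J) :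
    Continuous (fun S : ℕ → Bool => D x ι S z) := by
  rw [continuous_iff_continuousAt]
  intro S0
  rw [Metric.continuousAt_iff']
  intro ε hε
  obtain ⟨a, ha⟩ := hJ.dense.exists_dist_lt z (show 0 < ε / 3 by linarith)
  have h1 : Continuous (fun S : ℕ → Bool => D0 x S a) := by
    obtain ⟨N, hN⟩ := exists_bound a
    simp_rw [fun S : ℕ → Bool => D0_range (x := x) S a N hN]
    refine continuous_finsetSum _ fun j _ => ?_
    exact ((continuous_of_discreteTopology (f := x)).comp (continuous_st j)).const_smul (a j)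
  have h2 := Metric.continuousAt_iff'.1 (h1.continuousAt (x := S0)) (ε / 3) (by linarith)
  filter_upwards [h2] with S hS
  have h3 : ∀ S, dist (D x ι S z) (D0 x S a) < ε / 3 := by
    intro S
    rw [← D_ι hJ, dist_eq_norm, ← map_sub]
    rw [dist_eq_norm] at ha
    exact lt_of_le_of_lt (D_le hJ S _) ha
  have h4 := dist_triangle (D x ι S z) (D0 x S a) (D x ι S0 z)
  have h5 := dist_triangle (D0 x S a) (D0 x S0 a) (D x ι S0 z)
  have h6 := h3 S
  have h7 := h3 S0
  rw [dist_comm] at h7
  linarith

/-- The norm of `J` is attained by some `S`. -/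
theorem exists_norm (hx : Unc x) (hJ : IsJamesification x J ι) (z : J) :
    ∃ S, ‖D x ι S z‖ = ‖z‖ := by
  obtain ⟨S, _, hS⟩ := isCompact_univ.exists_isMaxOn (s := (Set.univ : Set (ℕ → Bool)))
    Set.univ_nonempty (continuous_D hJ z).norm.continuousOn
  refine ⟨S, le_antisymm (D_le hJ S z) ?_⟩
  refine le_of_forall_pos_le_add fun ε hε => ?_
  obtain ⟨a, ha⟩ := hJ.dense.exists_dist_lt z (show 0 < ε / 3 by linarith)
  rw [dist_eq_norm] at ha
  obtain ⟨S', hS'⟩ := exists_D0 hx hJ a (ε / 3) (by linarith)
  have h1 : ‖D x ι S' z‖ ≤ ‖D x ι S z‖ := hS (Set.mem_univ S')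
  have h2 : ‖D x ι S' (z - ι a)‖ ≤ ‖z - ι a‖ := D_le hJ S' _
  rw [map_sub, D_ι hJ] at h2
  have h3 := norm_sub_norm_le (D0 x S' a) (D x ι S' z)
  rw [norm_sub_rev] at h3
  have h4 := norm_sub_norm_le z (ι a)
  linarith

end

end Pool.Agent.T6.H21.JR
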