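import Pool.Agent.T6.H21.JR.Step

/-!
Isometries of Jamesifications over strictly convex spaces: the induction.
-/

set_option autoImplicit false
open Filter Topology

namespace Pool.Agent.T6.H21.JR

open Pool.Agent.Results.MP_8db9c5_an.NontrivialIsometry

section
variable {X : Type} [NormedAddCommGroup X] [NormedSpace ℝ X] [CompleteSpace X] {x : ℕ → X}
variable {J : Type} [NormedAddCommGroup J] [NormedSpace ℝ J] [CompleteSpace J]
  {ι : (ℕ →₀ ℝ) →ₗ[ℝ] J}
variable {Y : Type} [NormedAddCommGroup Y] [NormedSpace ℝ Y] [CompleteSpace Y] {y : ℕ → Y}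
variable {K : Type} [NormedAddCommGroup K] [NormedSpace ℝ K] [CompleteSpace K]
  {κ : (ℕ →₀ ℝ) →ₗ[ℝ] K}

/-- Two coordinates cannot both be multiples of the same functional after an isometry. -/
theorem parallel (hy : Unc y) (hK : IsJamesification y K κ) (T : J ≃ₗᵢ[ℝ] K) (n p q : ℕ)
    (hpq : p ≠ q) (a b : ℝ) (h1 : ∀ z, co κ p (T z) = a * co ι n z)
    (h2 : ∀ z, co κ q (T z) = b * co ι n z) : False := by
  have e1 := h1 (T.symm (E κ p))
  have e2 := h2 (T.symm (E κ p))
  have e3 := h2 (T.symm (E κ q))
  rw [T.apply_symm_apply, co_E hy hK, if_pos rfl] at e1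
  rw [T.apply_symm_apply, co_E hy hK, if_neg hpq] at e2
  rw [T.apply_symm_apply, co_E hy hK, if_pos rfl] at e3
  have h4 : co ι n (T.symm (E κ p)) ≠ 0 := by
    intro h; rw [h, mul_zero] at e1; exact one_ne_zero e1
  rcases mul_eq_zero.1 e2.symm with h5 | h5
  · rw [h5, zero_mul] at e3
    exact one_ne_zero e3
  · exact h4 h5

/-- A functional which is determined on the unit vectors. -/
theorem co_comp (hx : Unc x) (hJ : IsJamesification x J ι) (T : J ≃ₗᵢ[ℝ] K) (n p : ℕ)
    (h : ∀ k, k ≠ n → co κ p (T (E ι k)) = 0) :
    ∀ z, co κ p (T z) = co κ p (T (E ι n)) * co ι n z := by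
  have h1 := ext_E hJ.dense ((co κ p).comp (T.toContinuousLinearEquiv : J →L[ℝ] K))
    (co κ p (T (E ι n)) • co ι n) (fun k => by
      show co κ p (T (E ι k)) = co κ p (T (E ι n)) * co ι n (E ι k)
      rw [co_E hx hJ]
      by_cases hk : k = n
      · rw [hk, if_pos rfl, mul_one]
      · rw [h k hk, if_neg hk, mul_zero])
  intro z
  exact DFunLike.congr_fun h1 z

variable [StrictConvexSpace ℝ Y]

theorem step2 (hx : Unc x) (hy : Unc y) (hJ : IsJamesification x J ι)
    (hK : IsJamesification y K κ) (T : J ≃ₗᵢ[ℝ] K)
    (hA : ∀ z, A κ (T z) = A ι z) (n : ℕ)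
    (hn : ∀ i, i < n → T (E ι i) = E κ i ∧ ∀ z, co κ i (T z) = co ι i z) :
    T (E ι n) = E κ n ∧ ∀ z, co κ n (T z) = co ι n z := by
  obtain ⟨S, hu1, hne⟩ := step2a hx hy hJ hK T n
  set u : Y := D y κ S (T (yb ι (n + 1))) with hu
  set X0 : Y := D y κ S (T (E ι n)) with hX0
  have hDj : ∀ j, n < j → D y κ S (T (E ι j)) = u := by
    intro j hj
    have h := D_const hx hJ hK T S (n + 1) hu1 (j - (n + 1))
    rwa [show n + 1 + (j - (n + 1)) = j by omega] at h
  have hXne : u ≠ X0 := by
    intro h
    rw [h, sub_self, norm_zero] at hne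
    linarith
  -- the operator on the subspace
  have hid : ∀ a, D y κ S (T a) = ∑ i ∈ Finset.range n, co ι i a • y (st S i) + co ι n a • X0 +
      (A ι a - ps ι (n + 1) a) • u := by
    have h := ext_E hJ.dense ((D y κ S).comp (T.toContinuousLinearEquiv : J →L[ℝ] K))
      (∑ i ∈ Finset.range n, (co ι i).smulRight (y (st S i)) + (co ι n).smulRight X0 +
        (A ι - ps ι (n + 1)).smulRight u) (fun k => by
        show D y κ S (T (E ι k)) = _
        simp only [ContinuousLinearMap.add_apply, ContinuousLinearMap.sum_apply,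
          ContinuousLinearMap.smulRight_apply,
          ContinuousLinearMap.sub_apply, ps_E hx hJ, A_E hx hJ, co_E hx hJ, ite_smul, one_smul,
          zero_smul]
        rw [Finset.sum_ite_eq]
        rcases lt_trichotomy k n with hk | hk | hk
        · rw [(hn k hk).1, D_E hK]
          simp [hk, hk.ne, show k < n + 1 by omega]
        · subst hk
          simp [hX0]
        · rw [hDj k hk]
          simp [hk.ne', show ¬ k < n by omega, show ¬ k < n + 1 by omega])
    intro a
    have h2 := DFunLike.congr_fun h a
    simp only [ContinuousLinearMap.add_apply, ContinuousLinearMap.sum_apply,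
          ContinuousLinearMap.smulRight_apply, ContinuousLinearMap.sub_apply] at h2
    exact h2
  have hV : ∀ z, (∀ i, i < n → co κ i z = 0) →
      D y κ S z = co ι n (T.symm z) • X0 + (A κ z - co ι n (T.symm z)) • u := by
    intro z hz
    have h := hid (T.symm z)
    rw [T.apply_symm_apply] at h
    have h1 : ∀ i ∈ Finset.range n, co ι i (T.symm z) = 0 := by
      intro i hi
      have h2 := (hn i (Finset.mem_range.1 hi)).2 (T.symm z)
      rw [T.apply_symm_apply, hz i (Finset.mem_range.1 hi)] at h2
      exact h2.symm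
    have h3 : ∑ i ∈ Finset.range n, co ι i (T.symm z) • y (st S i) = 0 :=
      Finset.sum_eq_zero fun i hi => by rw [h1 i hi, zero_smul]
    have h4 : ps ι (n + 1) (T.symm z) = co ι n (T.symm z) := by
      rw [ps_succ, ps_apply, Finset.sum_eq_zero h1, zero_add]
    have h5 : A ι (T.symm z) = A κ z := by
      rw [← hA (T.symm z), T.apply_symm_apply]
    rw [h, h3, h4, h5, zero_add]
  have hEV : ∀ k, n ≤ k → ∀ i, i < n → co κ i (E κ k) = 0 := by
    intro k hk i hi
    rw [co_E hy hK, if_neg (by omega)]
  have hTV : ∀ k, n ≤ k → ∀ i, i < n → co κ i (T (E ι k)) = 0 := by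
    intro k hk i hi
    rw [(hn i hi).2, co_E hx hJ, if_neg (by omega)]
  set h : ℕ → ℝ := fun k => co ι n (T.symm (E κ k)) with hh
  have hlab : ∀ k, n ≤ k → y (st S k) = h k • X0 + (1 - h k) • u := by
    intro k hk
    have h1 := hV (E κ k) (hEV k hk)
    rw [D_E hK, A_E hy hK] at h1
    exact h1
  set q : ℕ := st S n with hq
  have hqn : q ≤ n := st_le S n
  -- there is exactly one starting point after `n`
  have hex : ∃ m, n < m ∧ S m = true := by
    by_contra hcon
    push Not at hcon
    have hst : ∀ k, n ≤ k → st S k = q := by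
      intro k hk
      refine st_eq S k q (by omega) (st_mem S n) ?_
      intro r hr hr2
      by_cases h3 : r ≤ n
      · by_contra h4
        rw [Bool.not_eq_false] at h4
        have := le_st S n r h3 h4
        omega
      · simpa using hcon r (by omega)
    have h1 : ∀ z, D y κ S z = ∑ i ∈ Finset.range n, co κ i z • y (st S i) +
        (A κ z - ps κ n z) • y q := by
      have h := ext_E hK.dense (D y κ S)
        (∑ i ∈ Finset.range n, (co κ i).smulRight (y (st S i)) +
          (A κ - ps κ n).smulRight (y q)) (fun k => by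
          rw [D_E hK]
          simp only [ContinuousLinearMap.add_apply, ContinuousLinearMap.sum_apply,
            ContinuousLinearMap.smulRight_apply,
            ContinuousLinearMap.sub_apply, ps_E hy hK, A_E hy hK, co_E hy hK, ite_smul, one_smul,
            zero_smul]
          rw [Finset.sum_ite_eq]
          by_cases hk : k < n
          · simp [hk]
          · simp [hk, hst k (by omega)])
      intro z
      have h2 := DFunLike.congr_fun h z
      simp only [ContinuousLinearMap.add_apply, ContinuousLinearMap.sum_apply,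
            ContinuousLinearMap.smulRight_apply, ContinuousLinearMap.sub_apply] at h2
      exact h2
    have h2 : ∀ k, n ≤ k → D y κ S (T (E ι k)) = y q := by
      intro k hk
      have h3 : ∑ i ∈ Finset.range n, co κ i (T (E ι k)) • y (st S i) = 0 :=
        Finset.sum_eq_zero fun i hi => by rw [hTV k hk i (Finset.mem_range.1 hi), zero_smul]
      have h4 : ps κ n (T (E ι k)) = 0 := by
        rw [ps_apply]
        exact Finset.sum_eq_zero fun i hi => hTV k hk i (Finset.mem_range.1 hi)
      rw [h1, h3, h4, hA, A_E hx hJ, sub_zero, one_smul, zero_add]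
    have h3 := h2 (n + 1) (by omega)
    rw [hDj (n + 1) (by omega)] at h3
    exact hXne (h3.trans (h2 n le_rfl).symm)
  obtain ⟨m, hm, hSm⟩ := hex
  have hstm : st S m = m := st_eq S m m le_rfl (Or.inr hSm) (fun r _ _ => by omega)
  have huniq : ∀ m', n < m' → S m' = true → m' = m := by
    intro m' hm' hSm'
    by_contra hmm
    have hstm' : st S m' = m' := st_eq S m' m' le_rfl (Or.inr hSm') (fun r _ _ => by omega)
    have e0 := hlab n le_rfl
    have e1 := hlab m hm.le
    have e2 := hlab m' hm'.le
    rw [hstm] at e1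
    rw [hstm'] at e2
    rw [← hq] at e0
    have e3 : ((h m - h n) - (h m' - h n)) • y q + (h m' - h n) • y m + (-(h m - h n)) • y m' = 0 := by
      rw [e0, e1, e2]
      module
    have h3 := hy.coef3 (k := q) (l := m) (m := m') (by omega) (by omega) (fun h => hmm h.symm)
      ((h m - h n) - (h m' - h n)) (h m' - h n) (-(h m - h n))
    rw [e3, norm_zero] at h3
    have h4 := abs_nonpos_iff.1 h3.2.1
    have h5 : h m' = h n := by linarith
    rw [h5] at e2
    exact hy.ne (k := m') (l := q) (by omega) (e2.trans e0.symm)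
  -- the operator is given by two sums on the subspace
  have hst1 : ∀ k, n ≤ k → k < m → st S k = q := by
    intro k hk hkm
    refine st_eq S k q (by omega) (st_mem S n) ?_
    intro r hr hr2
    by_cases h3 : r ≤ n
    · by_contra h4
      rw [Bool.not_eq_false] at h4
      have := le_st S n r h3 h4
      omega
    · by_contra h4
      rw [Bool.not_eq_false] at h4
      have := huniq r (by omega) h4
      omega
  have hst2 : ∀ k, m ≤ k → st S k = m := by
    intro k hk
    refine st_eq S k m hk (Or.inr hSm) ?_
    intro r hr hr2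
    by_contra h4
    rw [Bool.not_eq_false] at h4
    have := huniq r (by omega) h4
    omega
  have hform : ∀ z, D y κ S z = ∑ i ∈ Finset.range n, co κ i z • y (st S i) +
      (ps κ m z - ps κ n z) • y q + (A κ z - ps κ m z) • y m := by
    have h := ext_E hK.dense (D y κ S)
      (∑ i ∈ Finset.range n, (co κ i).smulRight (y (st S i)) +
        (ps κ m - ps κ n).smulRight (y q) + (A κ - ps κ m).smulRight (y m)) (fun k => by
        rw [D_E hK]
        simp only [ContinuousLinearMap.add_apply, ContinuousLinearMap.sum_apply,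
          ContinuousLinearMap.smulRight_apply,
          ContinuousLinearMap.sub_apply, ps_E hy hK, A_E hy hK, co_E hy hK, ite_smul, one_smul,
          zero_smul]
        rw [Finset.sum_ite_eq]
        by_cases hk : k < n
        · simp [hk, show k < m by omega]
        · by_cases hk2 : k < m
          · simp [hk, hk2, hst1 k (by omega) hk2]
          · simp [hk, hk2, hst2 k (by omega)])
    intro z
    have h2 := DFunLike.congr_fun h z
    simp only [ContinuousLinearMap.add_apply, ContinuousLinearMap.sum_apply,
          ContinuousLinearMap.smulRight_apply, ContinuousLinearMap.sub_apply] at h2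
    exact h2
  have hDT : ∀ k, n ≤ k → D y κ S (T (E ι k)) =
      ps κ m (T (E ι k)) • y q + (1 - ps κ m (T (E ι k))) • y m := by
    intro k hk
    have h3 : ∑ i ∈ Finset.range n, co κ i (T (E ι k)) • y (st S i) = 0 :=
      Finset.sum_eq_zero fun i hi => by rw [hTV k hk i (Finset.mem_range.1 hi), zero_smul]
    have h4 : ps κ n (T (E ι k)) = 0 := by
      rw [ps_apply]
      exact Finset.sum_eq_zero fun i hi => hTV k hk i (Finset.mem_range.1 hi)
    rw [hform, h3, h4, hA, A_E hx hJ, sub_zero, zero_add]
  have hnT : ∀ k, ‖T (E ι k)‖ ≤ 1 := fun k => by rw [T.norm_map, norm_E hx hJ]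
  have hAT : ∀ k, A κ (T (E ι k)) = 1 := fun k => by rw [hA, A_E hx hJ]
  have hqm : q ≠ m := by omega
  set s : ℝ := ps κ m (T (E ι (n + 1))) with hs
  have hs01 := ps_mem hy hK m (by omega) (T (E ι (n + 1))) (hnT _) (hAT _)
  rw [← hs] at hs01
  have hus : u = s • y q + (1 - s) • y m := by
    rw [← hDj (n + 1) (by omega), hDT (n + 1) (by omega)]
  have hsj : ∀ j, n < j → ps κ m (T (E ι j)) = s := by
    intro j hj
    have h1 := hDT j hj.le
    rw [hDj j hj, hus] at h1
    have h2 : (ps κ m (T (E ι j)) - s) • y q + (s - ps κ m (T (E ι j))) • y m = 0 := by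
      have h3 := sub_eq_zero.2 h1.symm
      rw [← h3]
      module
    have h3 := (hy.coef2 hqm (ps κ m (T (E ι j)) - s) (s - ps κ m (T (E ι j)))).1
    rw [h2, norm_zero] at h3
    have := abs_nonpos_iff.1 h3
    linarith
  have hscase : s = 0 ∨ s = 1 := by
    by_contra hcon
    push Not at hcon
    have h1 : ‖s • y q‖ ≤ s := by
      rw [norm_smul, hy.norm_one, mul_one, Real.norm_eq_abs, abs_of_nonneg hs01.1]
    have h2 : ‖(1 - s) • y m‖ ≤ 1 - s := by
      rw [norm_smul, hy.norm_one, mul_one, Real.norm_eq_abs, abs_of_nonneg (by linarith [hs01.2])]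
    have h3 := sc_conv h1 h2 (by rw [← hus]; exact hu1)
    rw [← hus] at h3
    have h4 : y q = u := smul_right_injective Y hcon.1 h3
    have h5 : (1 - s) • y m = (1 - s) • u := by
      have h6 : (1 - s) • y m = u - s • y q := by rw [hus]; abel
      rw [h6, h4]
      module
    have h6 : y m = u := smul_right_injective Y (fun h => hcon.2 (by linarith)) h5
    exact hy.ne hqm (h4.trans h6.symm)
  rcases hscase with hs0 | hs1
  · -- the images are constant before `m`
    have hz : ∀ j, n < j → ∀ i, i < m → co κ i (T (E ι j)) = 0 := by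
      intro j hj
      refine K2 hy hK m (by omega) _ (hnT j) ?_
      rw [hAT, hsj j hj, hs0]
      norm_num
    by_cases hmn : m = n + 1
    · -- the main case
      have hc : ∀ z, co κ n (T z) = co κ n (T (E ι n)) * co ι n z := by
        refine co_comp hx hJ T n n (fun k hk => ?_)
        rcases lt_or_gt_of_ne hk with h1 | h1
        · rw [(hn k h1).1, co_E hy hK, if_neg hk]
        · exact hz k h1 n (by omega)
      set θ : ℝ := co κ n (T (E ι n)) with hθ
      have h1 := hc (T.symm (E κ n))
      rw [T.apply_symm_apply, co_E hy hK, if_pos rfl] at h1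
      have h2 : |co ι n (T.symm (E κ n))| ≤ 1 := by
        refine (co_le hx hJ n _).trans ?_
        rw [T.symm.norm_map, norm_E hy hK]
      have h3 : ps κ (n + 1) (T (E ι n)) = θ := by
        rw [ps_succ, ps_apply, Finset.sum_eq_zero (fun i hi =>
          hTV n le_rfl i (Finset.mem_range.1 hi)), zero_add]
      have h4 := ps_mem hy hK (n + 1) (Nat.succ_pos n) (T (E ι n)) (hnT n) (hAT n)
      rw [h3] at h4
      have h5 : θ = 1 := by
        have h6 := abs_le.1 h2
        nlinarith [h4.1, h4.2, h6.1, h6.2]
      have hcn : ∀ z, co κ n (T z) = co ι n z := by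
        intro z
        rw [hc, h5, one_mul]
      refine ⟨?_, hcn⟩
      have h6 := K3 hy hK (n + 1) (Nat.succ_pos n) (T (E ι n)) (hnT n) (by rw [h3, h5, abs_one])
      have h7 : T (E ι n) - E κ n = 0 := by
        refine sep hy hK _ (fun i => ?_) ?_
        · rw [map_sub, co_E hy hK]
          rcases lt_trichotomy i n with hi | hi | hi
          · rw [hTV n le_rfl i hi, if_neg (by omega), sub_zero]
          · subst hi
            rw [hcn, co_E hx hJ, sub_self]
          · rw [h6 i (by omega), if_neg (by omega), sub_zero]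
        · rw [map_sub, hAT, A_E hy hK, sub_self]
      exact sub_eq_zero.1 h7
    · exfalso
      refine parallel hy hK T n n (n + 1) (by omega) _ _ (co_comp hx hJ T n n (fun k hk => ?_))
        (co_comp hx hJ T n (n + 1) (fun k hk => ?_))
      · rcases lt_or_gt_of_ne hk with h1 | h1
        · rw [(hn k h1).1, co_E hy hK, if_neg hk]
        · exact hz k h1 n (by omega)
      · rcases lt_or_gt_of_ne hk with h1 | h1
        · rw [(hn k h1).1, co_E hy hK, if_neg (by omega)]
        · exact hz k h1 (n + 1) (by omega)
  · -- the images are constant after `m`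
    exfalso
    have hz : ∀ j, n < j → ∀ i, m ≤ i → co κ i (T (E ι j)) = 0 := by
      intro j hj
      refine K3 hy hK m (by omega) _ (hnT j) ?_
      rw [hsj j hj, hs1, abs_one]
    refine parallel hy hK T n m (m + 1) (by omega) _ _ (co_comp hx hJ T n m (fun k hk => ?_))
      (co_comp hx hJ T n (m + 1) (fun k hk => ?_))
    · rcases lt_or_gt_of_ne hk with h1 | h1
      · rw [(hn k h1).1, co_E hy hK, if_neg (by omega)]
      · exact hz k h1 m le_rfl
    · rcases lt_or_gt_of_ne hk with h1 | h1
      · rw [(hn k h1).1, co_E hy hK, if_neg (by omega)]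
      · exact hz k h1 (m + 1) (by omega)

theorem canonical_pos (hx : Unc x) (hy : Unc y) (hJ : IsJamesification x J ι)
    (hK : IsJamesification y K κ) (T : J ≃ₗᵢ[ℝ] K)
    (hA : ∀ z, A κ (T z) = A ι z) : ∀ a, T (ι a) = κ a := by
  have h1 : ∀ n, T (E ι n) = E κ n ∧ ∀ z, co κ n (T z) = co ι n z := by
    intro n
    induction n using Nat.strong_induction_on with
    | _ n ih => exact step2 hx hy hJ hK T hA n ih
  have h : (T.toLinearEquiv.toLinearMap : J →ₗ[ℝ] K).comp ι = κ := by
    refine Finsupp.lhom_ext' fun i => LinearMap.ext_ring ?_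
    exact (h1 i).1
  intro a
  exact LinearMap.congr_fun h a

/-- Every surjective linear isometry between two Jamesifications, the second over a strictly
convex space, is the canonical map or its negative. -/
theorem canonical (hx : Unc x) (hy : Unc y) (hJ : IsJamesification x J ι)
    (hK : IsJamesification y K κ) (T : J ≃ₗᵢ[ℝ] K) :
    (∀ a, T (ι a) = κ a) ∨ (∀ a, T (ι a) = - κ a) := by
  rcases step1 hx hy hJ hK T with h | h
  · left
    exact canonical_pos hx hy hJ hK T h
  · right
    have h1 := canonical_pos hx hy hJ hK (T.trans (LinearIsometryEquiv.neg ℝ)) (fun z => by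
      show A κ (-(T z)) = A ι z
      rw [map_neg, h, neg_neg])
    intro a
    have h2 : -(T (ι a)) = κ a := h1 a
    rw [← h2, neg_neg]

end

end Pool.Agent.T6.H21.JR
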