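import Pool.Agent.T6.H21.JR.Fun

/-!
Isometries of Jamesifications over strictly convex spaces.
-/

set_option autoImplicit false
open Filter Topology

namespace Pool.Agent.T6.H21.JR

open Pool.Agent.Results.MP_8db9c5_an.NontrivialIsometry

section
variable {X : Type} [NormedAddCommGroup X] [NormedSpace ℝ X] [CompleteSpace X] {x : ℕ → X}
variable {J : Type} [NormedAddCommGroup J] [NormedSpace ℝ J] [CompleteSpace J]
  {ι : (ℕ →₀ ℝ) →ₗ[ℝ] J}

theorem norm_E (hx : Unc x) (hJ : IsJamesification x J ι) (i : ℕ) : ‖E ι i‖ = 1 := by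
  obtain ⟨S, hS⟩ := exists_norm hx hJ (E ι i)
  rw [← hS, D_E hJ, hx.norm_one]

theorem hasSum_half : HasSum (fun i : ℕ => (1 / 2 : ℝ) ^ (i + 1)) 1 := by
  have h := hasSum_geometric_two.mul_left (1 / 2 : ℝ)
  have e : (1 / 2 : ℝ) * 2 = 1 := by norm_num
  rw [e] at h
  have e2 : (fun i : ℕ => (1 / 2 : ℝ) ^ (i + 1)) = fun i : ℕ => 1 / 2 * (1 / 2 : ℝ) ^ i := by
    funext i
    rw [pow_succ]
    ring
  rw [e2]
  exact h

/-- A generic point of the positive face spanned by the `E i`, `i ≥ n`. -/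
noncomputable def yb (ι : (ℕ →₀ ℝ) →ₗ[ℝ] J) (n : ℕ) : J := ∑' i : ℕ, (1 / 2 : ℝ) ^ (i + 1) • E ι (n + i)

theorem norm_term (hx : Unc x) (hJ : IsJamesification x J ι) (n i : ℕ) :
    ‖(1 / 2 : ℝ) ^ (i + 1) • E ι (n + i)‖ = (1 / 2 : ℝ) ^ (i + 1) := by
  rw [norm_smul, norm_E hx hJ, mul_one, Real.norm_eq_abs, abs_of_nonneg (by positivity)]

theorem summable_yb (hx : Unc x) (hJ : IsJamesification x J ι) (n : ℕ) :
    Summable (fun i : ℕ => (1 / 2 : ℝ) ^ (i + 1) • E ι (n + i)) :=
  Summable.of_norm_bounded hasSum_half.summable (fun i => (norm_term hx hJ n i).le)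

theorem norm_yb (hx : Unc x) (hJ : IsJamesification x J ι) (n : ℕ) : ‖yb ι n‖ ≤ 1 :=
  tsum_of_norm_bounded hasSum_half (fun i => (norm_term hx hJ n i).le)

theorem norm_yb_sub (hx : Unc x) (hJ : IsJamesification x J ι) (n i : ℕ) :
    ‖yb ι n - (1 / 2 : ℝ) ^ (i + 1) • E ι (n + i)‖ ≤ 1 - (1 / 2 : ℝ) ^ (i + 1) := by
  have h1 := (summable_yb hx hJ n).tsum_eq_add_tsum_ite i
  have h2 : yb ι n - (1 / 2 : ℝ) ^ (i + 1) • E ι (n + i) =
      ∑' b : ℕ, (if b = i then 0 else (1 / 2 : ℝ) ^ (b + 1) • E ι (n + b)) := by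
    unfold yb
    rw [h1]
    abel
  rw [h2]
  refine tsum_of_norm_bounded
    (g := fun b => (1 / 2 : ℝ) ^ (b + 1) - (if b = i then (1 / 2 : ℝ) ^ (i + 1) else 0))
    (hasSum_half.sub (hasSum_ite_eq i _)) (fun b => ?_)
  by_cases hb : b = i
  · simp [hb]
  · simp only [hb, if_false, sub_zero]
    exact (norm_term hx hJ n b).le

theorem A_yb (hx : Unc x) (hJ : IsJamesification x J ι) (n : ℕ) : A ι (yb ι n) = 1 := by
  have h1 := ((summable_yb hx hJ n).hasSum.mapL (A ι))
  have h2 : (fun i : ℕ => A ι ((1 / 2 : ℝ) ^ (i + 1) • E ι (n + i))) =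
      fun i : ℕ => (1 / 2 : ℝ) ^ (i + 1) := by
    funext i
    rw [map_smul, A_E hx hJ, smul_eq_mul, mul_one]
  rw [h2] at h1
  exact h1.unique hasSum_half

theorem ps_yb (hx : Unc x) (hJ : IsJamesification x J ι) (n m : ℕ) (hm : m ≤ n) :
    ps ι m (yb ι n) = 0 := by
  have h1 := ((summable_yb hx hJ n).hasSum.mapL (ps ι m))
  have h2 : (fun i : ℕ => ps ι m ((1 / 2 : ℝ) ^ (i + 1) • E ι (n + i))) =
      fun i : ℕ => (0 : ℝ) := by
    funext i
    rw [map_smul, ps_E hx hJ, if_neg (by omega), smul_zero]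
  rw [h2] at h1
  exact h1.unique hasSum_zero

/-- Coordinates and the sum functional separate points. -/
theorem sep (hx : Unc x) (hJ : IsJamesification x J ι) (z : J) (h : ∀ i, co ι i z = 0)
    (hA : A ι z = 0) : z = 0 := by
  have h0 : ∀ (S : ℕ → Bool) (N : ℕ), (∀ k, N < k → S k = false) → D x ι S z = 0 := by
    intro S N hS
    have h1 := ext_E hJ.dense (D x ι S) (∑ i ∈ Finset.range N, (co ι i).smulRight (x (st S i)) +
      (A ι - ps ι N).smulRight (x (st S N))) (fun k => by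
        rw [D_E hJ]
        simp only [ContinuousLinearMap.add_apply, ContinuousLinearMap.sum_apply,
          ContinuousLinearMap.smulRight_apply,
          ContinuousLinearMap.sub_apply, ps_E hx hJ, A_E hx hJ, co_E hx hJ, ite_smul, one_smul,
          zero_smul]
        rw [Finset.sum_ite_eq]
        by_cases hk : k < N
        · simp [hk]
        · have h2 : st S k = st S N := by
            refine st_eq S k (st S N) (by have := st_le S N; omega) (st_mem S N) ?_
            intro r hr hr2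
            by_cases h3 : r ≤ N
            · by_contra h4
              rw [Bool.not_eq_false] at h4
              have := le_st S N r h3 h4
              omega
            · exact hS r (by omega)
          simp [hk, h2])
    rw [h1]
    simp only [ContinuousLinearMap.add_apply, ContinuousLinearMap.sum_apply,
      ContinuousLinearMap.smulRight_apply, ContinuousLinearMap.sub_apply, h, hA, ps_apply]
    simp
  obtain ⟨S, hS⟩ := exists_norm hx hJ z
  have h1 : Tendsto (fun N : ℕ => (fun k : ℕ => S k && decide (k ≤ N))) atTop (𝓝 S) := by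
    rw [tendsto_pi_nhds]
    intro k
    refine tendsto_const_nhds.congr' ?_
    filter_upwards [eventually_ge_atTop k] with N hN
    simp [hN]
  have h2 : Tendsto (fun N : ℕ => D x ι (fun k : ℕ => S k && decide (k ≤ N)) z) atTop
      (𝓝 (D x ι S z)) := ((continuous_D hJ z).tendsto S).comp h1
  have h3 : (fun N : ℕ => D x ι (fun k : ℕ => S k && decide (k ≤ N)) z) = fun _ => 0 := by
    funext N
    exact h0 _ N (fun k hk => by simp [not_le.2 hk])
  rw [h3] at h2
  have h4 := tendsto_nhds_unique h2 tendsto_const_nhds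
  rw [h4, norm_zero] at hS
  exact norm_eq_zero.1 hS.symm

variable {Y : Type} [NormedAddCommGroup Y] [NormedSpace ℝ Y] [CompleteSpace Y] {y : ℕ → Y}
variable {K : Type} [NormedAddCommGroup K] [NormedSpace ℝ K] [CompleteSpace K]
  {κ : (ℕ →₀ ℝ) →ₗ[ℝ] K}

variable [StrictConvexSpace ℝ Y]

theorem D_const (hx : Unc x) (hJ : IsJamesification x J ι) (hK : IsJamesification y K κ)
    (T : J ≃ₗᵢ[ℝ] K) (S : ℕ → Bool) (n : ℕ)
    (h : 1 ≤ ‖D y κ S (T (yb ι n))‖) (i : ℕ) :
    D y κ S (T (E ι (n + i))) = D y κ S (T (yb ι n)) := by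
  set w : ℝ := (1 / 2 : ℝ) ^ (i + 1) with hw
  have hw0 : 0 < w := by positivity
  have e : D y κ S (T (w • E ι (n + i))) + D y κ S (T (yb ι n - w • E ι (n + i))) =
      D y κ S (T (yb ι n)) := by
    rw [← map_add, ← map_add]
    congr 2
    abel
  have h1 : ‖D y κ S (T (w • E ι (n + i)))‖ ≤ w := by
    refine (D_le hK S _).trans ?_
    rw [T.norm_map]
    exact (norm_term hx hJ n i).le
  have h2 : ‖D y κ S (T (yb ι n - w • E ι (n + i)))‖ ≤ 1 - w := by
    refine (D_le hK S _).trans ?_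
    rw [T.norm_map]
    exact norm_yb_sub hx hJ n i
  have h3 := sc_conv h1 h2 (by rw [e]; exact h)
  rw [e, map_smul, map_smul] at h3
  exact smul_right_injective Y hw0.ne' h3

/-- Every isometry preserves the sum functional up to a sign. -/
theorem step1 (hx : Unc x) (hy : Unc y) (hJ : IsJamesification x J ι)
    (hK : IsJamesification y K κ) (T : J ≃ₗᵢ[ℝ] K) :
    (∀ z, A κ (T z) = A ι z) ∨ (∀ z, A κ (T z) = - A ι z) := by
  obtain ⟨S, hS⟩ := exists_norm hy hK (T (yb ι 0))
  set u : Y := D y κ S (T (yb ι 0)) with hu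
  have hu1 : 1 ≤ ‖u‖ := by
    rw [hS, T.norm_map]
    have h := A_le hx hJ (yb ι 0)
    rwa [A_yb hx hJ, abs_one] at h
  have hu2 : ‖u‖ ≤ 1 := by
    rw [hS, T.norm_map]
    exact norm_yb hx hJ 0
  have hD : ∀ z, D y κ S (T z) = A ι z • u := by
    have h := ext_E hJ.dense
      ((D y κ S).comp (T.toContinuousLinearEquiv : J →L[ℝ] K)) ((A ι).smulRight u) (fun i => by
        have h1 := D_const hx hJ hK T S 0 hu1 i
        rw [zero_add] at h1
        show D y κ S (T (E ι i)) = A ι (E ι i) • u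
        rw [A_E hx hJ, one_smul, h1])
    intro z
    exact DFunLike.congr_fun h z
  have hD' : ∀ z, D y κ S z = A ι (T.symm z) • u := by
    intro z
    rw [← hD, T.apply_symm_apply]
  have hSm : ∀ m, 0 < m → S m = false := by
    intro m hm
    by_contra h
    rw [Bool.not_eq_false] at h
    have h1 := hD' (E κ m)
    have h2 := hD' (E κ 0)
    rw [D_E hK, st_eq S m m le_rfl (Or.inr h) (fun r _ _ => by omega)] at h1
    rw [D_E hK] at h2
    have h2' : y 0 = A ι (T.symm (E κ 0)) • u := h2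
    have h3 : (A ι (T.symm (E κ m))) • y 0 + (-(A ι (T.symm (E κ 0)))) • y m = 0 := by
      rw [h1, h2', smul_smul, smul_smul, ← add_smul]
      convert zero_smul ℝ u using 2
      ring
    have h4 := (hy.coef2 (k := 0) (l := m) (by omega) (A ι (T.symm (E κ m)))
      (-(A ι (T.symm (E κ 0))))).2
    rw [h3, norm_zero] at h4
    have h5 := abs_nonpos_iff.1 h4
    have h6 : A ι (T.symm (E κ 0)) = 0 := by linarith
    rw [h6, zero_smul] at h2'
    have h7 := hy.norm_one 0
    rw [h2', norm_zero] at h7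
    exact zero_ne_one h7
  have hDz : ∀ z, D y κ S z = A κ z • y 0 := by
    have h := ext_E hK.dense (D y κ S) ((A κ).smulRight (y 0)) (fun i => by
      rw [D_E hK, st_eq S i 0 (Nat.zero_le i) (Or.inl rfl) (fun r hr _ => hSm r hr)]
      show y 0 = A κ (E κ i) • y 0
      rw [A_E hy hK, one_smul])
    intro z
    exact DFunLike.congr_fun h z
  set e : ℝ := A κ (T (E ι 0)) with he
  have he1 : e • y 0 = u := by
    rw [he, ← hDz, hD, A_E hx hJ, one_smul]
  have he2 : |e| = 1 := by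
    have h := congrArg norm he1
    rw [norm_smul, hy.norm_one, mul_one, Real.norm_eq_abs] at h
    rw [h]
    exact le_antisymm hu2 hu1
  have hx0 : y 0 ≠ 0 := by
    intro h
    have := hy.norm_one 0
    rw [h, norm_zero] at this
    exact zero_ne_one this
  have hfin : ∀ z, A κ (T z) = A ι z * e := by
    intro z
    have h := hDz (T z)
    rw [hD, ← he1, smul_smul] at h
    exact (smul_left_injective ℝ hx0 h).symm
  rcases (abs_eq (by norm_num : (0 : ℝ) ≤ 1)).1 he2 with h | h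
  · left
    intro z
    rw [hfin, h, mul_one]
  · right
    intro z
    rw [hfin, h]
    ring

omit [StrictConvexSpace ℝ Y] in
/-- The first part of the second step: a good set of starting points. -/
theorem step2a (hx : Unc x) (hy : Unc y) (hJ : IsJamesification x J ι)
    (hK : IsJamesification y K κ) (T : J ≃ₗᵢ[ℝ] K) (n : ℕ) :
    ∃ S, 1 ≤ ‖D y κ S (T (yb ι (n + 1)))‖ ∧
      1 ≤ ‖D y κ S (T (yb ι (n + 1))) - D y κ S (T (E ι n))‖ := by
  set v : ℕ → J := fun r => yb ι (n + 1) - (1 / ((r : ℝ) + 1)) • E ι n with hv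
  have hv1 : ∀ r : ℕ, 1 ≤ ‖v r‖ := by
    intro r
    have h := (ps_le hx hJ (n + 1) (Nat.succ_pos n) (v r)).2
    have h1 : A ι (v r) - ps ι (n + 1) (v r) = 1 := by
      simp only [hv, map_sub, map_smul, A_yb hx hJ, ps_yb hx hJ (n + 1) (n + 1) le_rfl, A_E hx hJ,
        ps_E hx hJ]
      simp
    rw [h1, abs_one] at h
    exact h
  choose Sr hSr using fun r => exists_norm hy hK (T (v r))
  obtain ⟨S, _, φ, hφ, hS⟩ := isCompact_univ.tendsto_subseq (fun r => Set.mem_univ (Sr r))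
  have lim1 : Tendsto (fun r => D y κ (Sr (φ r)) (T (yb ι (n + 1)))) atTop
      (𝓝 (D y κ S (T (yb ι (n + 1))))) := ((continuous_D hK _).tendsto S).comp hS
  have lim2 : Tendsto (fun r => D y κ (Sr (φ r)) (T (E ι n))) atTop
      (𝓝 (D y κ S (T (E ι n)))) := ((continuous_D hK _).tendsto S).comp hS
  have limt : Tendsto (fun r => 1 - 1 / ((φ r : ℝ) + 1)) atTop (𝓝 1) := by
    have h := (tendsto_one_div_add_atTop_nhds_zero_nat (𝕜 := ℝ)).comp hφ.tendsto_atTop
    have h2 := h.const_sub 1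
    rw [sub_zero] at h2
    exact h2
  have ht : ∀ r : ℕ, 0 < 1 / ((r : ℝ) + 1) := fun r => by positivity
  have hsplit : ∀ r : ℕ, D y κ (Sr r) (T (v r)) = D y κ (Sr r) (T (yb ι (n + 1))) -
      (1 / ((r : ℝ) + 1)) • D y κ (Sr r) (T (E ι n)) := by
    intro r
    simp only [hv, map_sub, map_smul]
  have hn1 : ∀ r : ℕ, 1 ≤ ‖D y κ (Sr r) (T (v r))‖ := by
    intro r
    rw [hSr, T.norm_map]
    exact hv1 r
  have hE : ∀ r : ℕ, ‖D y κ (Sr r) (T (E ι n))‖ ≤ 1 := by
    intro r
    refine (D_le hK _ _).trans ?_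
    rw [T.norm_map, norm_E hx hJ]
  have hY : ∀ r : ℕ, ‖D y κ (Sr r) (T (yb ι (n + 1)))‖ ≤ 1 := by
    intro r
    refine (D_le hK _ _).trans ?_
    rw [T.norm_map]
    exact norm_yb hx hJ _
  have b1 : ∀ r : ℕ, 1 - 1 / ((r : ℝ) + 1) ≤ ‖D y κ (Sr r) (T (yb ι (n + 1)))‖ := by
    intro r
    have h1 := hn1 r
    rw [hsplit] at h1
    have h2 := norm_sub_le (D y κ (Sr r) (T (yb ι (n + 1))))
      ((1 / ((r : ℝ) + 1)) • D y κ (Sr r) (T (E ι n)))
    rw [norm_smul, Real.norm_eq_abs, abs_of_pos (ht r)] at h2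
    have h3 := mul_le_mul_of_nonneg_left (hE r) (ht r).le
    linarith
  have b2 : ∀ r : ℕ, 1 - 1 / ((r : ℝ) + 1) ≤
      ‖D y κ (Sr r) (T (yb ι (n + 1))) - D y κ (Sr r) (T (E ι n))‖ := by
    intro r
    obtain ⟨g, hg1, hg2⟩ := exists_dual_vector'' ℝ (D y κ (Sr r) (T (v r)))
    have h1 : 1 ≤ g (D y κ (Sr r) (T (v r))) := by
      have : g (D y κ (Sr r) (T (v r))) = ‖D y κ (Sr r) (T (v r))‖ := by simpa using hg2
      rw [this]
      exact hn1 r
    rw [hsplit, map_sub, map_smul, smul_eq_mul] at h1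
    have hg : ∀ w : Y, |g w| ≤ ‖w‖ := by
      intro w
      have := g.le_opNorm w
      rw [Real.norm_eq_abs] at this
      refine this.trans ?_
      have := mul_le_mul_of_nonneg_right hg1 (norm_nonneg w)
      rwa [one_mul] at this
    have h2 := (abs_le.1 ((hg _).trans (hY r))).2
    have h3 := (abs_le.1 ((hg _).trans (hE r))).1
    have h4 := (abs_le.1 (hg (D y κ (Sr r) (T (yb ι (n + 1))) - D y κ (Sr r) (T (E ι n))))).2
    rw [map_sub] at h4
    have h5 : (1 / ((r : ℝ) + 1)) * g (D y κ (Sr r) (T (E ι n))) ≤ 0 := by linarith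
    have h6 : g (D y κ (Sr r) (T (E ι n))) ≤ 0 := by
      by_contra h7
      have := mul_pos (ht r) (not_le.1 h7)
      linarith
    have h7 : -(1 / ((r : ℝ) + 1)) ≤ (1 / ((r : ℝ) + 1)) * g (D y κ (Sr r) (T (E ι n))) := by
      have := mul_le_mul_of_nonneg_left h3 (ht r).le
      linarith
    linarith
  refine ⟨S, ?_, ?_⟩
  · exact le_of_tendsto_of_tendsto' limt lim1.norm (fun r => b1 (φ r))
  · exact le_of_tendsto_of_tendsto' limt (lim1.sub lim2).norm (fun r => b2 (φ r))

end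

end Pool.Agent.T6.H21.JR
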